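import Pool.Agent.Helper83_CNED.Stmt

/-!
GADF: the gadget inequality for a cell.
-/

open MeasureTheory Set Topology

open scoped ENNReal

noncomputable section

namespace Pool.Agent.Helper83_CNED.H73

theorem frame_line (ε σ : ℝ) (i : Fin 3) (c : Fin 3 → ℝ) (x : Eu 3) (t : ℝ) :
    frame ε σ i c (line x 0 t) = line (frame ε σ i c x) i (c i + σ * ε * t) := by
  ext j
  rw [line_apply]
  by_cases hj : j = i
  · subst hj
    simp [frame, line_apply]
  · have : j - i ≠ 0 := sub_ne_zero.2 hj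
    simp [frame, line_apply, hj, this]

theorem frame_i (ε σ : ℝ) (i : Fin 3) (c : Fin 3 → ℝ) (x : Eu 3) :
    frame ε σ i c x i = c i + σ * ε * x 0 := by
  simp [frame]

theorem frame_j (ε σ : ℝ) (i : Fin 3) (c : Fin 3 → ℝ) (x : Eu 3) {j : Fin 3} (hj : j ≠ i) :
    frame ε σ i c x j = c j + ε * x (j - i) := by
  simp [frame, hj]

theorem corner_i (m : ℕ) (z : Fin 3 → ℤ) (i : Fin 3) (s : Bool) (a : Fin 3 → ℤ) :
    corner m z i s a i = tf m s (z i) := by
  simp [corner]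

theorem tg_eq (m : ℕ) (s : Bool) (k : ℤ) :
    tf m s k + (-(sg s : ℝ)) * (1 / RR (m + 1)) * 6 = tg m s k := by
  cases s <;> simp [tf, tg, sg] <;> ring

theorem sb_bd (k : Fin 8) : 0 ≤ sbL k 1 ∧ sbU k 1 ≤ 7 ∧ 0 ≤ sbL k 2 ∧ sbU k 2 ≤ 7 ∧
    -7 ≤ sbL k 0 ∧ sbU k 0 ≤ 13 := by
  fin_cases k <;> simp [sbL, sbU]

theorem fin_sub : ∀ i j : Fin 3, j ≠ i → j - i = 1 ∨ j - i = 2 := by decide

theorem fin_add1 : ∀ i : Fin 3, i + 1 ≠ i := by decide

theorem fin_add2 : ∀ i : Fin 3, i + 2 ≠ i := by decide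

theorem measurableSet_WW : MeasurableSet WW :=
  MeasurableSet.iUnion fun _ => measurableSet_ob _ _

/-- the image of a long box under the frame -/
theorem frame_image (ε σ : ℝ) (i : Fin 3) (c : Fin 3 → ℝ) (hε : 0 < ε) (hσ : σ = 1 ∨ σ = -1)
    (φ : Eu 3 ≃ₜ Eu 3) (hφ : ∀ x, φ x = frame ε σ i c x) :
    ∃ α β : ℝ, α < β ∧ β - α = 1 / ε ∧
      {p : Eu 3 | (0 < p i ∧ p i < 1) ∧ ∀ j, j ≠ i → c j < p j ∧ p j < c j + 7 * ε} =
        frame ε σ i c '' ob ![α, 0, 0] ![β, 7, 7] := by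
  have hob : ∀ (α β : ℝ) (x : Eu 3), x ∈ ob ![α, 0, 0] ![β, 7, 7] ↔
      (α < x 0 ∧ x 0 < β) ∧ (0 < x 1 ∧ x 1 < 7) ∧ (0 < x 2 ∧ x 2 < 7) := by
    intro α β x
    simp [ob, Fin.forall_fin_succ]
  have main : ∀ α β : ℝ, (∀ x : Eu 3, (α < x 0 ∧ x 0 < β) ↔
      (0 < c i + σ * ε * x 0 ∧ c i + σ * ε * x 0 < 1)) →
      {p : Eu 3 | (0 < p i ∧ p i < 1) ∧ ∀ j, j ≠ i → c j < p j ∧ p j < c j + 7 * ε} =
        frame ε σ i c '' ob ![α, 0, 0] ![β, 7, 7] := by
    intro α β hab
    have key : ∀ x : Eu 3, x ∈ ob ![α, 0, 0] ![β, 7, 7] ↔ frame ε σ i c x ∈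
        {p : Eu 3 | (0 < p i ∧ p i < 1) ∧ ∀ j, j ≠ i → c j < p j ∧ p j < c j + 7 * ε} := by
      intro x
      rw [hob, hab x]
      simp only [mem_ofPred_eq, frame_i]
      apply and_congr_right
      intro _
      constructor
      · rintro ⟨h1, h2⟩ j hj
        rw [frame_j _ _ _ _ _ hj]
        rcases fin_sub i j hj with h | h
        · rw [h]
          constructor
          · linarith [mul_pos hε h1.1]
          · linarith [mul_lt_mul_of_pos_left h1.2 hε]
        · rw [h]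
          constructor
          · linarith [mul_pos hε h2.1]
          · linarith [mul_lt_mul_of_pos_left h2.2 hε]
      · intro h
        have h1 := h (i + 1) (fin_add1 i)
        have h2 := h (i + 2) (fin_add2 i)
        rw [frame_j _ _ _ _ _ (fin_add1 i)] at h1
        rw [frame_j _ _ _ _ _ (fin_add2 i)] at h2
        have e1 : (i + 1) - i = 1 := by abel
        have e2 : (i + 2) - i = 2 := by abel
        rw [e1] at h1
        rw [e2] at h2
        refine ⟨⟨?_, ?_⟩, ⟨?_, ?_⟩⟩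
        · exact pos_of_mul_pos_right (by linarith [h1.1] : 0 < ε * x 1) hε.le
        · exact lt_of_mul_lt_mul_left (by linarith [h1.2] : ε * x 1 < ε * 7) hε.le
        · exact pos_of_mul_pos_right (by linarith [h2.1] : 0 < ε * x 2) hε.le
        · exact lt_of_mul_lt_mul_left (by linarith [h2.2] : ε * x 2 < ε * 7) hε.le
    ext p
    constructor
    · intro hp
      refine ⟨φ.symm p, ?_, ?_⟩
      · rw [key, ← hφ, Homeomorph.apply_symm_apply]
        exact hp
      · rw [← hφ, Homeomorph.apply_symm_apply]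
    · rintro ⟨x, hx, rfl⟩
      exact (key x).1 hx
  rcases hσ with rfl | rfl
  · refine ⟨-c i / ε, (1 - c i) / ε, ?_, ?_, main _ _ ?_⟩
    · apply div_lt_div_of_pos_right _ hε; linarith
    · field_simp; ring
    · intro x
      rw [div_lt_iff₀ hε, lt_div_iff₀ hε]
      constructor <;> rintro ⟨h1, h2⟩ <;> constructor <;> nlinarith
  · refine ⟨(c i - 1) / ε, c i / ε, ?_, ?_, main _ _ ?_⟩
    · apply div_lt_div_of_pos_right _ hε; linarith
    · field_simp; ring
    · intro x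
      rw [div_lt_iff₀ hε, lt_div_iff₀ hε]
      constructor <;> rintro ⟨h1, h2⟩ <;> constructor <;> nlinarith

/-- GADF -/
theorem gadF (hGad : GadStmt) (hGeo : GeoStmt) (hFrame : FrameStmt) : GadFStmt := by
  obtain ⟨C, hC, hgad⟩ := hGad
  refine ⟨C, hC, ?_⟩
  intro f g hyp m z i s ho he a ha
  obtain ⟨hg, hUG⟩ := hyp
  set ε : ℝ := 1 / RR (m + 1) with hεdef
  have hε : 0 < ε := one_div_pos.2 (RRr_pos (m + 1))
  set σ : ℝ := -(sg s : ℝ) with hσdef
  have hσ : σ = 1 ∨ σ = -1 := by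
    rw [hσdef]; cases s <;> simp [sg]
  set c : Fin 3 → ℝ := corner m z i s a with hcdef
  obtain ⟨⟨φ, hφ⟩, hcv, htr⟩ := hFrame ε σ i c hε hσ
  have hgeo : ∀ k : Fin 8, ∀ x ∈ sb k, frame ε σ i c x ∈ UU := fun k x hx =>
    hGeo m z i s ho he a ha k x hx
  have hfc : Continuous (frame ε σ i c) := by
    have : frame ε σ i c = φ := by funext x; rw [hφ]
    rw [this]; exact φ.continuous
  obtain ⟨α, β, hαβ, hlen, himg⟩ := frame_image ε σ i c hε hσ φ hφ
  have h7 : ∀ j, c j + 7 / RR (m + 1) = c j + 7 * ε := by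
    intro j; rw [hεdef]; ring
  have hset : {p : Eu 3 | (0 < p i ∧ p i < 1) ∧
      ∀ j, j ≠ i → c j < p j ∧ p j < c j + 7 / RR (m + 1)} =
      frame ε σ i c '' ob ![α, 0, 0] ![β, 7, 7] := by
    rw [← himg]
    ext p
    simp only [mem_ofPred_eq, h7]
  rw [hset]
  have hF : Measurable (fun p : Eu 3 =>
      edist (f (line p i (tf m s (z i)))) (f (line p i (tg m s (z i))))) :=
    ((f.continuous.comp (continuous_line_left i _)).edist
      (f.continuous.comp (continuous_line_left i _))).measurable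
  rw [hcv _ _ hF (measurableSet_ob _ _)]
  -- the gadget inequality for `f ∘ frame`
  have hG : Measurable (fun x : Eu 3 => ENNReal.ofReal ε * g (frame ε σ i c x)) :=
    (hg.comp hfc.measurable).const_mul _
  have hh : ∀ x : Eu 3, (φ.trans f) x = f (frame ε σ i c x) := by
    intro x; simp [hφ]
  have hh' : ((φ.trans f : Eu 3 ≃ₜ Eu 3) : Eu 3 → Eu 3) = fun x => f (frame ε σ i c x) := by
    funext x; exact hh x
  have hmain := hgad (φ.trans f) _ hG (by
    intro k j
    rw [hh']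
    exact htr f g UU hg hUG _ _ (fun x hx => hgeo k x hx) j) α β hαβ
  have hint : ∀ x : Eu 3, edist (f (line (frame ε σ i c x) i (tf m s (z i))))
      (f (line (frame ε σ i c x) i (tg m s (z i)))) =
      edist ((φ.trans f) (line x 0 0)) ((φ.trans f) (line x 0 6)) := by
    intro x
    rw [hh, hh, frame_line, frame_line]
    have e0 : c i + σ * ε * 0 = tf m s (z i) := by
      rw [hcdef, corner_i]; ring
    have e6 : c i + σ * ε * 6 = tg m s (z i) := by
      rw [hcdef, corner_i, hσdef, hεdef]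
      exact tg_eq m s (z i)
    rw [e0, e6]
  simp_rw [hint]
  have hgW : ∫⁻ x in WW, ENNReal.ofReal ε * g (frame ε σ i c x) =
      ENNReal.ofReal ε * ∫⁻ x in WW, g (frame ε σ i c x) :=
    lintegral_const_mul _ (hg.comp hfc.measurable)
  have hcvW := hcv g WW hg measurableSet_WW
  have hsub : frame ε σ i c '' WW ⊆ cellCol m z i s a ∩ UU := by
    rintro _ ⟨x, hx, rfl⟩
    obtain ⟨k, hk⟩ := mem_iUnion.1 hx
    refine ⟨⟨?_, ?_⟩, hgeo k x hk⟩
    · have hk0 := hk 0
      have hb := sb_bd k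
      have b1 : ((-7 : ℤ) : ℝ) ≤ sbL k 0 := by exact_mod_cast hb.2.2.2.2.1
      have b2 : ((sbU k 0 : ℤ) : ℝ) ≤ ((13 : ℤ) : ℝ) := by exact_mod_cast hb.2.2.2.2.2
      push_cast at b1 b2
      rw [frame_i, hcdef, corner_i]
      have e : tf m s (z i) + σ * ε * x 0 - tf m s (z i) = σ * (ε * x 0) := by ring
      rw [e, abs_mul]
      have hs1 : |σ| = 1 := by rcases hσ with h | h <;> rw [h] <;> simp
      rw [hs1, one_mul, abs_mul, abs_of_pos hε]
      have hx13 : |x 0| < 13 := by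
        rw [abs_lt]; constructor
        · linarith [hk0.1]
        · linarith [hk0.2]
      calc ε * |x 0| < ε * 13 := mul_lt_mul_of_pos_left hx13 hε
        _ = 13 / RR (m + 1) := by rw [hεdef]; ring
    · intro j hj
      rw [frame_j _ _ _ _ _ hj]
      have hkj := hk (j - i)
      have hb := sb_bd k
      have hb1 : (0 : ℝ) ≤ sbL k (j - i) ∧ ((sbU k (j - i) : ℤ) : ℝ) ≤ 7 := by
        rcases fin_sub i j hj with h | h
        · rw [h]; exact ⟨by exact_mod_cast hb.1, by exact_mod_cast hb.2.1⟩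
        · rw [h]; exact ⟨by exact_mod_cast hb.2.2.1, by exact_mod_cast hb.2.2.2.1⟩
      have p1 : 0 < x (j - i) := lt_of_le_of_lt hb1.1 hkj.1
      have p2 : x (j - i) < 7 := lt_of_lt_of_le hkj.2 hb1.2
      constructor
      · linarith [mul_pos hε p1]
      · have : c j + 7 / RR (m + 1) = c j + ε * 7 := by rw [hεdef]; ring
        rw [← hcdef, this]
        linarith [mul_lt_mul_of_pos_left p2 hε]
  have hle : ENNReal.ofReal (ε ^ 3) * ∫⁻ x in WW, g (frame ε σ i c x) ≤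
      ∫⁻ x in cellCol m z i s a ∩ UU, g x := by
    rw [← hcvW]
    exact lintegral_mono_set hsub
  have hββ : ENNReal.ofReal (β - α) * ENNReal.ofReal ε = 1 := by
    rw [← ENNReal.ofReal_mul (by linarith), hlen, one_div_mul_cancel hε.ne', ENNReal.ofReal_one]
  calc ENNReal.ofReal (ε ^ 3) * ∫⁻ x in ob ![α, 0, 0] ![β, 7, 7],
        edist ((φ.trans f) (line x 0 0)) ((φ.trans f) (line x 0 6))
      ≤ ENNReal.ofReal (ε ^ 3) * (C * ENNReal.ofReal (β - α) *
        ∫⁻ x in WW, ENNReal.ofReal ε * g (frame ε σ i c x)) := by gcongr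
    _ = ENNReal.ofReal (ε ^ 3) * (C * ENNReal.ofReal (β - α) *
        (ENNReal.ofReal ε * ∫⁻ x in WW, g (frame ε σ i c x))) := by rw [hgW]
    _ = C * (ENNReal.ofReal (β - α) * ENNReal.ofReal ε) *
        (ENNReal.ofReal (ε ^ 3) * ∫⁻ x in WW, g (frame ε σ i c x)) := by ring
    _ = C * (ENNReal.ofReal (ε ^ 3) * ∫⁻ x in WW, g (frame ε σ i c x)) := by
        rw [hββ, mul_one]
    _ ≤ C * ∫⁻ x in cellCol m z i s a ∩ UU, g x := by gcongr

end Pool.Agent.Helper83_CNED.H73
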