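import Pool.Agent.Helper83_CNED.Stmt

/-!
GEO: the eight boxes of the gadget lie in `UU`.
-/

open MeasureTheory Set Topology

open scoped ENNReal

noncomputable section

namespace Pool.Agent.Helper83_CNED.H73

/-- finite check of the pattern on the staples -/
theorem pat_boxes (k : Fin 8) (hk : k ≠ 0) (u v w : ℤ) (hu : sbL k 0 ≤ u) (hu' : u < sbU k 0)
    (h0 : 0 ≤ u) (h6 : u < 6) (hv : sbL k 1 ≤ v) (hv' : v < sbU k 1) (hw : sbL k 2 ≤ w)
    (hw' : w < sbU k 2) : pat u v w = 1 ∨ pat u v w = -1 := by
  fin_cases k
  · exact absurd rfl hk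
  all_goals
    simp [sbL, sbU] at hu hu' hv hv' hw hw'
  · omega
  all_goals
    unfold pat
    split_ifs <;> first | (left; rfl) | (right; rfl) | omega

theorem sb_uv (k : Fin 8) : 0 ≤ sbL k 1 ∧ sbU k 1 ≤ 7 ∧ 0 ≤ sbL k 2 ∧ sbU k 2 ≤ 7 ∧
    -7 ≤ sbL k 0 ∧ sbU k 0 ≤ 13 := by
  fin_cases k <;> simp [sbL, sbU]

theorem sb_zero : sbU 0 0 = 0 := rfl

theorem fin_ne1 : ∀ i : Fin 3, i + 1 ≠ i := by decide

theorem fin_ne2 : ∀ i : Fin 3, i + 2 ≠ i := by decide

theorem fin_cov : ∀ i j : Fin 3, j ≠ i → j = i + 1 ∨ j = i + 2 := by decide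

/-- the integer coordinates of a cube in one of the boxes -/
theorem even_box (hCh : ChildStmt) (hLab : LabFStmt) (m : ℕ) (z : Fin 3 → ℤ) (i : Fin 3) (s : Bool)
    (ho : Odd (lab m z)) (he : Even (lab m (z + sg s • ue i))) (a : Fin 3 → ℤ)
    (ha : ∀ j, j ≠ i → 3 ≤ a j ∧ a j < KK m - 3) (k : Fin 8) (c : Fin 3 → ℤ) (u : ℤ)
    (hci : c i = if s then (MM m : ℤ) * (z i + 1) - 1 - u else (MM m : ℤ) * z i + u)
    (hu : sbL k 0 ≤ u) (hu' : u < sbU k 0)
    (hc : ∀ j, j ≠ i → (MM m : ℤ) * z j + 7 * a j + sbL k (j - i) ≤ c j ∧
      c j < (MM m : ℤ) * z j + 7 * a j + sbU k (j - i)) : Even (lab (m + 1) c) := by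
  have hM : (112 : ℤ) ≤ MM m := by exact_mod_cast MM_ge m
  have hMK : (MM m : ℤ) = 7 * KK m := by unfold MM; push_cast; ring
  have hsb := sb_uv k
  have hi1 : i + 1 ≠ i := fin_ne1 i
  have hi2 : i + 2 ≠ i := fin_ne2 i
  have e1 : (i + 1) - i = 1 := by abel
  have e2 : (i + 2) - i = 2 := by abel
  have h1 := hc (i + 1) hi1
  have h2 := hc (i + 2) hi2
  rw [e1] at h1
  rw [e2] at h2
  have a1 := ha (i + 1) hi1
  have a2 := ha (i + 2) hi2
  have hjc : ∀ j, j ≠ i → j = i + 1 ∨ j = i + 2 := fin_cov i
  -- local coordinates
  have key : ∀ (q y r : ℤ), 0 ≤ r → r < MM m → y = (MM m : ℤ) * q + r →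
      y / MM m = q ∧ y % MM m = r := by
    intro q y r h0 h1 h2
    constructor
    · rw [h2, Int.mul_add_ediv_left _ _ (by omega), Int.ediv_eq_zero_of_lt h0 h1, add_zero]
    · rw [h2, Int.mul_add_emod_self_left, Int.emod_eq_of_lt h0 h1]
  obtain ⟨v, hv⟩ : ∃ v, c (i + 1) = (MM m : ℤ) * z (i + 1) + 7 * a (i + 1) + v :=
    ⟨c (i + 1) - ((MM m : ℤ) * z (i + 1) + 7 * a (i + 1)), by ring⟩
  obtain ⟨w, hw⟩ : ∃ w, c (i + 2) = (MM m : ℤ) * z (i + 2) + 7 * a (i + 2) + w :=
    ⟨c (i + 2) - ((MM m : ℤ) * z (i + 2) + 7 * a (i + 2)), by ring⟩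
  have k1 := key (z (i + 1)) (c (i + 1)) (7 * a (i + 1) + v) (by omega) (by omega) (by omega)
  have k2 := key (z (i + 2)) (c (i + 2)) (7 * a (i + 2) + w) (by omega) (by omega) (by omega)
  have hv0 : (7 * a (i + 1) + v) % 7 = v := by omega
  have hw0 : (7 * a (i + 2) + w) % 7 = w := by omega
  by_cases hneg : u < 0
  · -- the cube lies in the neighbour
    have hpar : par (MM m) c = z + sg s • ue i := by
      funext j
      unfold par
      by_cases hj : j = i
      · subst hj
        have : (z + sg s • ue j) j = z j + sg s := by simp [ue]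
        rw [this]
        cases s with
        | true =>
          simp only [if_true] at hci
          exact (key (z j + sg true) (c j) (-1 - u) (by omega) (by omega)
            (by simp only [sg, if_true]; rw [hci]; ring)).1
        | false =>
          simp only [Bool.false_eq_true, if_false] at hci
          refine (key (z j + sg false) (c j) (MM m + u) (by omega) (by omega) ?_).1
          simp only [sg, Bool.false_eq_true, if_false]
          rw [hci]; ring
      · have : (z + sg s • ue i) j = z j := by simp [ue, hj]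
        rw [this]
        rcases hjc j hj with rfl | rfl
        · exact k1.1
        · exact k2.1
    rw [hCh.1 m c (by rw [hpar]; exact he)]
    exact even_two_mul _
  · push Not at hneg
    have hk0 : k ≠ 0 := by
      rintro rfl
      rw [sb_zero] at hu'
      omega
    have kk : c i / MM m = z i ∧ c i % MM m = if s then (MM m : ℤ) - 1 - u else u := by
      cases s with
      | true =>
        simp only [if_true] at hci ⊢
        exact key (z i) (c i) (MM m - 1 - u) (by omega) (by omega) (by rw [hci]; ring)
      | false =>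
        simp only [Bool.false_eq_true, if_false] at hci ⊢
        exact key (z i) (c i) u (by omega) (by omega) (by rw [hci])
    have hpar : par (MM m) c = z := by
      funext j
      unfold par
      by_cases hj : j = i
      · subst hj; exact kk.1
      · rcases hjc j hj with rfl | rfl
        · exact k1.1
        · exact k2.1
    have hmid : ∀ j, j ≠ i → mid (MM m) (c j % MM m) := by
      intro j hj
      rcases hjc j hj with rfl | rfl
      · rw [k1.2]; unfold mid; omega
      · rw [k2.2]; unfold mid; omega
    obtain ⟨L1, L2⟩ := hLab m z i c ho hpar hmid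
    by_cases h6 : u < 6
    · have hh := L1 s u he (by rw [kk.2]; cases s <;> simp) h6
      rw [k1.2, k2.2, hv0, hw0] at hh
      rw [hh]
      rcases pat_boxes k hk0 u v w hu hu' hneg h6 (by omega) (by omega) (by omega) (by omega)
        with hp | hp
      · rw [hp]
        have : lab m z + lab m (z + sg s • ue i) + 1 * (lab m z - lab m (z + sg s • ue i)) =
          2 * lab m z := by ring
        rw [this]; exact even_two_mul _
      · rw [hp]
        have : lab m z + lab m (z + sg s • ue i) + -1 * (lab m z - lab m (z + sg s • ue i)) =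
          2 * lab m (z + sg s • ue i) := by ring
        rw [this]; exact even_two_mul _
    · have hh := L2 (fun _ => by rw [kk.2]; cases s <;> simp <;> omega)
        (fun _ => by rw [kk.2]; cases s <;> simp <;> omega)
      rw [hh]; exact even_two_mul _

/-- GEO -/
theorem geo (hLab : LabFStmt) (hBox : BoxUStmt) (hCh : ChildStmt) : GeoStmt := by
  intro m z i s ho he a ha k x hx
  have hR : (0 : ℝ) < RR (m + 1) := RRr_pos (m + 1)
  have hRm : (0 : ℝ) < RR m := RRr_pos m
  have hMp : (0 : ℝ) < MM m := MMr_pos m
  refine hBox (m + 1)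
    (fun j => if j = i then (if s then (MM m : ℤ) * (z i + 1) - sbU k 0
      else (MM m : ℤ) * z i + sbL k 0) else (MM m : ℤ) * z j + 7 * a j + sbL k (j - i))
    (fun j => if j = i then (if s then (MM m : ℤ) * (z i + 1) - sbL k 0
      else (MM m : ℤ) * z i + sbU k 0) else (MM m : ℤ) * z j + 7 * a j + sbU k (j - i)) ?_ ?_
  · intro c hc
    have hci := hc i
    simp only [if_true] at hci
    have hcj : ∀ j, j ≠ i → (MM m : ℤ) * z j + 7 * a j + sbL k (j - i) ≤ c j ∧
      c j < (MM m : ℤ) * z j + 7 * a j + sbU k (j - i) := by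
      intro j hj
      have := hc j
      simpa only [hj, if_false] using this
    cases s with
    | true =>
      simp only [if_true] at hci
      exact even_box hCh hLab m z i true ho he a ha k c ((MM m : ℤ) * (z i + 1) - 1 - c i)
        (by simp) (by omega) (by omega) hcj
    | false =>
      simp only [Bool.false_eq_true, if_false] at hci
      exact even_box hCh hLab m z i false ho he a ha k c (c i - (MM m : ℤ) * z i)
        (by simp) (by omega) (by omega) hcj
  · intro j
    by_cases hj : j = i
    · subst hj
      have hx0 := hx 0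
      have hval : frame (1 / RR (m + 1)) (-(sg s : ℝ)) j (corner m z j s a) x j =
          tf m s (z j) + (-(sg s : ℝ)) * (1 / RR (m + 1)) * x 0 := by
        simp [frame, corner]
      rw [hval]
      cases s with
      | true =>
        simp only [if_true, tf, sg]
        have e : ((z j : ℝ) + 1) / RR m + -((1 : ℤ) : ℝ) * (1 / RR (m + 1)) * x 0 =
            ((MM m : ℝ) * (z j + 1) - x 0) / RR (m + 1) := by
          rw [RRr_succ]; field_simp; push_cast; ring
        rw [e]
        push_cast
        constructor
        · apply div_lt_div_of_pos_right _ hR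
          linarith [hx0.2]
        · apply div_lt_div_of_pos_right _ hR
          linarith [hx0.1]
      | false =>
        simp only [if_true, Bool.false_eq_true, if_false, tf, sg]
        have e : (z j : ℝ) / RR m + -((-1 : ℤ) : ℝ) * (1 / RR (m + 1)) * x 0 =
            ((MM m : ℝ) * z j + x 0) / RR (m + 1) := by
          rw [RRr_succ]; field_simp; push_cast; ring
        rw [e]
        push_cast
        constructor
        · apply div_lt_div_of_pos_right _ hR
          linarith [hx0.1]
        · apply div_lt_div_of_pos_right _ hR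
          linarith [hx0.2]
    · have hx0 := hx (j - i)
      have hval : frame (1 / RR (m + 1)) (-(sg s : ℝ)) i (corner m z i s a) x j =
          ((MM m : ℝ) * z j + 7 * a j + x (j - i)) / RR (m + 1) := by
        simp only [frame, corner, hj, if_false]
        push_cast
        ring
      rw [hval]
      simp only [hj, if_false]
      push_cast
      constructor
      · apply div_lt_div_of_pos_right _ hR
        linarith [hx0.1]
      · apply div_lt_div_of_pos_right _ hR
        linarith [hx0.2]

end Pool.Agent.Helper83_CNED.H73
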